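import Pool.Agent.helper69.DH.SpecR2

set_option autoImplicit false

open Filter Topology MeasureTheory
open scoped commutatorElement

namespace Pool.Agent.helper90.DH

open Pool.Agent.helper64.D2

/-- Floors of nearby points. -/
lemma rUSE_floor (s : ℕ) (x y : ℝ) (h : |x - y| ≤ 5 / 4 / 2 ^ s) : |ci s x - ci s y| ≤ 2 := by
  have h2 : (0 : ℝ) < 2 ^ s := by positivity
  have h3 : |2 ^ s * x - 2 ^ s * y| ≤ 5 / 4 := by
    rw [← mul_sub, abs_mul, abs_of_pos h2]
    calc 2 ^ s * |x - y| ≤ 2 ^ s * (5 / 4 / 2 ^ s) := mul_le_mul_of_nonneg_left h h2.le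
      _ = 5 / 4 := by field_simp
  have h4 := Int.floor_le ((2 : ℝ) ^ s * x)
  have h5 := Int.lt_floor_add_one ((2 : ℝ) ^ s * x)
  have h6 := Int.floor_le ((2 : ℝ) ^ s * y)
  have h7 := Int.lt_floor_add_one ((2 : ℝ) ^ s * y)
  obtain ⟨h8, h9⟩ := abs_le.1 h3
  unfold ci
  have h10 : ((⌊(2 : ℝ) ^ s * x⌋ - ⌊(2 : ℝ) ^ s * y⌋ : ℤ) : ℝ) < 3 := by
    push_cast
    linarith
  have h11 : (-3 : ℝ) < ((⌊(2 : ℝ) ^ s * x⌋ - ⌊(2 : ℝ) ^ s * y⌋ : ℤ) : ℝ) := by
    push_cast
    linarith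
  have h12 : (⌊(2 : ℝ) ^ s * x⌋ - ⌊(2 : ℝ) ^ s * y⌋ : ℤ) < 3 := by exact_mod_cast h10
  have h13 : (-3 : ℤ) < (⌊(2 : ℝ) ^ s * x⌋ - ⌊(2 : ℝ) ^ s * y⌋ : ℤ) := by exact_mod_cast h11
  rw [abs_le]
  constructor <;> omega

open Classical in
/-- The labels used at one level. -/
lemma rUSE_V (hBRN : rBRN_stmt) (P : RQ) (S : ℕ) (hR : RHY P S) (D : RD) (z : ℝ) (X : ℕ → ℝ) (hX : rNP P S z X)
    (n : ℕ) (hn0 : P.s0 ≤ n) (hnS : n ≤ S)
    (hG : ∀ m : ℤ, 12000 * ((D.K n ×ˢ Finset.range P.q).filter (fun p => p.2 ∈ D.G n p.1 ∧ rbb P n p.2 p.1 = m)).card ≤ P.q) :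
    12000 * ((Finset.range P.q).filter (fun i => ci n (X i) ∈ D.K n ∧ i ∈ D.G n (ci n (X i)))).card ≤ 5 * P.q := by
  have hB := (hBRN P S hR).2.2.1
  set c := ci n z with hc
  have hsub : ((Finset.range P.q).filter (fun i => ci n (X i) ∈ D.K n ∧ i ∈ D.G n (ci n (X i)))).card ≤
      ∑ m ∈ Finset.Icc (c - 2) (c + 2), ((D.K n ×ˢ Finset.range P.q).filter (fun p => p.2 ∈ D.G n p.1 ∧ rbb P n p.2 p.1 = m)).card := by
    refine le_trans ?_ (Finset.card_biUnion_le)
    apply Finset.card_le_card_of_injOn (fun i => (ci n (X i), i))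
    · intro i hi
      have hi' := Finset.mem_filter.1 (Finset.mem_coe.1 hi)
      obtain ⟨hiq, hi1, hi2⟩ := hi'
      have hiq' := Finset.mem_range.1 hiq
      have h1 := (hB n i z (X i) hn0 hnS hiq' (hX i hiq' n hn0 hnS)).2.1
      have h2 := rUSE_floor n _ _ h1
      have h3 : rbb P n i (ci n (X i)) = ci n (rpt P n i (ci n (X i))) := rfl
      rw [Finset.mem_coe, Finset.mem_biUnion]
      refine ⟨rbb P n i (ci n (X i)), ?_, ?_⟩
      · rw [Finset.mem_Icc, h3]
        obtain ⟨h4, h5⟩ := abs_le.1 h2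
        constructor <;> omega
      · rw [Finset.mem_filter]
        refine ⟨Finset.mem_product.2 ⟨hi1, hiq⟩, hi2, rfl⟩
    · intro i _ j _ hij
      exact (Prod.mk.inj hij).2
  have hcard : (Finset.Icc (c - 2) (c + 2)).card = 5 := by
    rw [Int.card_Icc]
    have : c + 2 + 1 - (c - 2) = 5 := by ring
    rw [this]
    rfl
  calc 12000 * ((Finset.range P.q).filter (fun i => ci n (X i) ∈ D.K n ∧ i ∈ D.G n (ci n (X i)))).card
      ≤ 12000 * ∑ m ∈ Finset.Icc (c - 2) (c + 2), ((D.K n ×ˢ Finset.range P.q).filter (fun p => p.2 ∈ D.G n p.1 ∧ rbb P n p.2 p.1 = m)).card := Nat.mul_le_mul_left _ hsub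
    _ = ∑ m ∈ Finset.Icc (c - 2) (c + 2), 12000 * ((D.K n ×ˢ Finset.range P.q).filter (fun p => p.2 ∈ D.G n p.1 ∧ rbb P n p.2 p.1 = m)).card := Finset.mul_sum _ _ _
    _ ≤ ∑ _m ∈ Finset.Icc (c - 2) (c + 2), P.q := Finset.sum_le_sum (fun m _ => hG m)
    _ = 5 * P.q := by rw [Finset.sum_const, hcard, smul_eq_mul]

/-- A label which was used before is counted in the degree. -/
lemma rUSE_near (hBAS : rBAS_stmt) (hBRN : rBRN_stmt) (P : RQ) (S : ℕ) (hR : RHY P S) (z : ℝ) (X : ℕ → ℝ) (hX : rNP P S z X)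
    (n : ℕ) (hn0 : P.s0 ≤ n) (hnS : n ≤ S) (i j : ℕ) (hi : i < P.q) (hj : j < P.q) (t : ℕ) (ht : t ≤ n) :
    |2 ^ t * rlp n (rcc P n j (rbb P n i (ci n (X i)))) - (ci t (X j) : ℝ)| ≤ 12 := by
  have h2n : (0 : ℝ) < 2 ^ n := by positivity
  have h2t : (0 : ℝ) < 2 ^ t := by positivity
  have hB := hBRN P S hR
  have h1 := (hB.2.2.1 n i z (X i) hn0 hnS hi (hX i hi n hn0 hnS)).2.1
  have h2 := hB.2.2.2.2.1 n i (ci n (X i))
  set b := rbb P n i (ci n (X i)) with hb
  have h3 : |rlp n b - z| ≤ 9 / 4 / 2 ^ n := by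
    have h3' : rlp n b - z = (rlp n b - rpt P n i (ci n (X i))) + (rpt P n i (ci n (X i)) - z) := by ring
    rw [h3']
    refine (abs_add_le _ _).trans ?_
    refine (add_le_add h2 h1).trans (le_of_eq ?_)
    ring
  have hM := (hR.2.2.1 n hn0 hnS j hj).1.1 (rlp n b) z
  have h4 : |ev (P.cm n j) (rlp n b) - ev (P.cm n j) z| ≤ (1 + 1 / 2 ^ 27) * (9 / 4 / 2 ^ n) := by
    have h5 : ev (P.cm n j) (rlp n b) - ev (P.cm n j) z = (ev (P.cm n j) (rlp n b) - ev (P.cm n j) z - (rlp n b - z)) + (rlp n b - z) := by ring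
    rw [h5]
    refine (abs_add_le _ _).trans ?_
    have h6 := hM.1
    calc |ev (P.cm n j) (rlp n b) - ev (P.cm n j) z - (rlp n b - z)| + |rlp n b - z|
        ≤ |rlp n b - z| / 2 ^ 27 + |rlp n b - z| := by gcongr
      _ = (1 + 1 / 2 ^ 27) * |rlp n b - z| := by ring
      _ ≤ (1 + 1 / 2 ^ 27) * (9 / 4 / 2 ^ n) := mul_le_mul_of_nonneg_left h3 (by positivity)
  have h7 := hX j hj n hn0 hnS
  have h8 : |rlp n (rcc P n j b) - ev (P.cm n j) (rlp n b)| ≤ 1 / 2 ^ n := by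
    have h9 := hBAS.1 n (ev (P.cm n j) (rlp n b))
    have h10 : rcc P n j b = ci n (ev (P.cm n j) (rlp n b)) := rfl
    rw [h10, abs_le]
    constructor
    · linarith [h9.2.1]
    · have : (0 : ℝ) ≤ 1 / 2 ^ n := by positivity
      linarith [h9.1]
  have h11 : |rlp n (rcc P n j b) - X j| ≤ 4 / 2 ^ n := by
    have h12 : rlp n (rcc P n j b) - X j = (rlp n (rcc P n j b) - ev (P.cm n j) (rlp n b)) +
        (ev (P.cm n j) (rlp n b) - ev (P.cm n j) z) + -(X j - ev (P.cm n j) z) := by ring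
    rw [h12]
    refine (abs_add_le _ _).trans ?_
    have h13 := abs_add_le (rlp n (rcc P n j b) - ev (P.cm n j) (rlp n b)) (ev (P.cm n j) (rlp n b) - ev (P.cm n j) z)
    rw [abs_neg]
    have h14 : (1 : ℝ) / 2 ^ n + (1 + 1 / 2 ^ 27) * (9 / 4 / 2 ^ n) + 1 / 2 ^ 27 / 2 ^ n ≤ 4 / 2 ^ n := by
      have h15 : (1 : ℝ) / 2 ^ n + (1 + 1 / 2 ^ 27) * (9 / 4 / 2 ^ n) + 1 / 2 ^ 27 / 2 ^ n = (1 + (1 + 1 / 2 ^ 27) * (9 / 4) + 1 / 2 ^ 27) / 2 ^ n := by ring
      rw [h15]
      apply div_le_div_of_nonneg_right _ h2n.le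
      norm_num
    linarith
  have h16 : |2 ^ t * rlp n (rcc P n j b) - 2 ^ t * X j| ≤ 4 := by
    rw [← mul_sub, abs_mul, abs_of_pos h2t]
    have h17 : (2 : ℝ) ^ t ≤ 2 ^ n := pow_le_pow_right₀ (by norm_num) ht
    calc 2 ^ t * |rlp n (rcc P n j b) - X j| ≤ 2 ^ n * (4 / 2 ^ n) := mul_le_mul h17 h11 (abs_nonneg _) h2n.le
      _ = 4 := by field_simp
  have h18 := (hBAS.1 t (X j)).2.2
  have h19 : 2 ^ t * rlp n (rcc P n j b) - (ci t (X j) : ℝ) = (2 ^ t * rlp n (rcc P n j b) - 2 ^ t * X j) + (2 ^ t * X j - (ci t (X j) : ℝ)) := by ring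
  rw [h19]
  refine (abs_add_le _ _).trans ?_
  linarith

open Classical in
lemma rUSE_ind (hBAS : rBAS_stmt) (hBRN : rBRN_stmt) (P : RQ) (S : ℕ) (hR : RHY P S) (D : RD) (hD : ROK P D (S + 1))
    (z : ℝ) (X : ℕ → ℝ) (hX : rNP P S z X) : ∀ n : ℕ, n ≤ S + 1 →
    1000 * ((Finset.range P.q).filter (fun i => ∃ t, t < n ∧ ci t (X i) ∈ D.K t ∧ i ∈ D.G t (ci t (X i)))).card ≤ P.q := by
  intro n
  induction n with
  | zero =>
    intro _
    refine le_trans (le_of_eq ?_) (Nat.zero_le _)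
    rw [Nat.mul_eq_zero]
    right
    rw [Finset.card_eq_zero]
    apply Finset.eq_empty_of_forall_notMem
    intro i hi
    obtain ⟨_, t, ht, _⟩ := Finset.mem_filter.1 hi
    exact absurd ht (Nat.not_lt_zero _)
  | succ n ih =>
    intro hn
    have hnS : n ≤ S := by omega
    have ih' := ih (by omega)
    set U := (Finset.range P.q).filter (fun i => ∃ t, t < n ∧ ci t (X i) ∈ D.K t ∧ i ∈ D.G t (ci t (X i))) with hU
    set V := (Finset.range P.q).filter (fun i => ci n (X i) ∈ D.K n ∧ i ∈ D.G n (ci n (X i))) with hV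
    have hsub : ((Finset.range P.q).filter (fun i => ∃ t, t < n + 1 ∧ ci t (X i) ∈ D.K t ∧ i ∈ D.G t (ci t (X i)))) ⊆ U ∪ V := by
      intro i hi
      obtain ⟨hiq, t, ht, h1, h2⟩ := Finset.mem_filter.1 hi
      rcases Nat.lt_succ_iff_lt_or_eq.1 ht with h | h
      · exact Finset.mem_union_left _ (Finset.mem_filter.2 ⟨hiq, t, h, h1, h2⟩)
      · subst h
        exact Finset.mem_union_right _ (Finset.mem_filter.2 ⟨hiq, h1, h2⟩)
    have hcard := (Finset.card_le_card hsub).trans (Finset.card_union_le U V)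
    have hVe : V = ∅ → 1000 * ((Finset.range P.q).filter (fun i => ∃ t, t < n + 1 ∧ ci t (X i) ∈ D.K t ∧ i ∈ D.G t (ci t (X i)))).card ≤ P.q := by
      intro h
      rw [h, Finset.card_empty] at hcard
      omega
    have hgd := hD n (by omega)
    have hq : 1 ≤ P.q := hR.1.1
    by_cases hS1 : n < P.S1
    · apply hVe
      apply Finset.filter_eq_empty_iff.2
      rintro i _ ⟨h1, _⟩
      rw [(hgd.1 hS1).2] at h1
      exact absurd h1 (Finset.notMem_empty _)
    · have hS1' : P.S1 ≤ n := not_lt.1 hS1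
      obtain ⟨_, _, hGK1, hGK2⟩ := hgd.2 hS1'
      have hs0 : P.s0 ≤ n := hR.1.2.2.2.2.1.trans hS1'
      have hV1 := rUSE_V hBRN P S hR D z X hX n hs0 hnS hGK2
      rw [← hV] at hV1
      by_cases hVn : V = ∅
      · exact hVe hVn
      · obtain ⟨i, hi⟩ := Finset.nonempty_iff_ne_empty.2 hVn
        obtain ⟨hiq, hi1, hi2⟩ := Finset.mem_filter.1 hi
        have hiq' := Finset.mem_range.1 hiq
        have hU1 : 3000 * U.card < P.q := by
          rcases Nat.eq_or_lt_of_le hS1' with h | h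
          · have hUe : U = ∅ := by
              apply Finset.filter_eq_empty_iff.2
              rintro j _ ⟨t, ht, h1, _⟩
              have h2 := (hD t (by omega)).1 (by omega)
              rw [h2.2] at h1
              exact absurd h1 (Finset.notMem_empty _)
            rw [hUe, Finset.card_empty]
            omega
          · have hn1 : P.s0 ≤ n - 1 := by
              have := hR.1.2.2.2.2.1
              omega
            have h3 := (hGK1 _ hi1).2.2 i hi2
            have h4 : ci n (X i) / 2 = ci (n - 1) (X i) := by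
              have h5 := hBAS.2.1 n (n - 1) (X i) (by omega)
              have h6 : n - (n - 1) = 1 := by omega
              rw [h6, pow_one] at h5
              exact h5.symm
            rw [h4] at h3
            have h7 : U.card ≤ rdg P D.K 0 (n - 1) (rbb P (n - 1) i (ci (n - 1) (X i))) := by
              unfold rdg
              apply Finset.card_le_card
              intro j hj
              obtain ⟨hjq, t, ht, hj1, _⟩ := Finset.mem_filter.1 hj
              have hjq' := Finset.mem_range.1 hjq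
              refine Finset.mem_filter.2 ⟨hjq, t, by omega, ci t (X j), hj1, ?_⟩
              have h8 := rUSE_near hBAS hBRN P S hR z X hX (n - 1) hn1 (by omega) i j hiq' hjq' t (by omega)
              refine h8.trans ?_
              unfold rrk
              norm_num
            omega
        omega

open Classical in
theorem rUSE (hBAS : rBAS_stmt) (hBRN : rBRN_stmt) : rUSE_stmt := by
  intro P S hR D hD z X hX
  refine le_trans ?_ (rUSE_ind hBAS hBRN P S hR D hD z X hX (S + 1) le_rfl)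
  apply Nat.mul_le_mul_left
  apply Finset.card_le_card
  intro i hi
  obtain ⟨hiq, t, ht, h1, h2⟩ := Finset.mem_filter.1 hi
  exact Finset.mem_filter.2 ⟨hiq, t, by omega, h1, h2⟩

end Pool.Agent.helper90.DH
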